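import Pool.Agent.H62P.Pkg

/-!
# The final degree sum at a 2-connected level
-/

set_option autoImplicit false

namespace Pool.Agent.H35P

open List Pool.Agent.TF82 Pool.Agent.TFC Pool.Agent.TFB Pool.Agent.EG31
  Pool.Agent.H18C Pool.Agent.H62P

universe u

set_option linter.unusedSectionVars false
set_option linter.unusedVariables false

variable {V : Type u} [DecidableEq V]

/-- the neighbours and the non-neighbours of `p` on the cycle -/
theorem nn_add {G : SimpleGraph V} [DecidableRel G.Adj] {c : List V} (hc : c.Nodup) {p : V}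
    (hp : p ∈ c) {N : ℕ} {F : Finset V}
    (hF : ∀ z, z ∈ F ↔ z ∈ c ∧ z ≠ p ∧ ¬ G.Adj p z) (hN : N ≤ F.card) :
    dU G c.toFinset p + 1 + N ≤ c.length := by
  have h1 : (c.toFinset.filter (fun z => G.Adj p z)) ⊆ c.toFinset.erase p \ F := by
    intro z hz
    rw [Finset.mem_filter] at hz
    rw [Finset.mem_sdiff, Finset.mem_erase]
    refine ⟨⟨fun e => G.loopless.irrefl _ (e ▸ hz.2), hz.1⟩, fun h => ((hF z).1 h).2.2 hz.2⟩
  have h2 : F ⊆ c.toFinset.erase p := by
    intro z hz
    have := (hF z).1 hz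
    exact Finset.mem_erase.2 ⟨this.2.1, List.mem_toFinset.2 this.1⟩
  have h3 := Finset.card_le_card h1
  rw [Finset.card_sdiff_of_subset h2, Finset.card_erase_of_mem (List.mem_toFinset.2 hp),
    List.toFinset_card_of_nodup hc] at h3
  have h4 := Finset.card_le_card h2
  rw [Finset.card_erase_of_mem (List.mem_toFinset.2 hp), List.toFinset_card_of_nodup hc] at h4
  have h5 : 1 ≤ c.length := List.length_pos_of_mem hp
  unfold dU
  omega

/-- double counting of the edges between the members and the cycle -/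
theorem double [Fintype V] {G : SimpleGraph V} [DecidableRel G.Adj] {c : List V} {y : V}
    {I : Finset V} (hI : I ⊆ comp G [c] y) :
    ∑ v ∈ I, ((att G [c] y).filter (fun w => G.Adj v w)).card =
      ∑ w ∈ c.toFinset, (I.filter (fun v => G.Adj v w)).card := by
  have h1 : ∀ v ∈ I, (att G [c] y).filter (fun w => G.Adj v w) =
      c.toFinset.filter (fun w => G.Adj v w) := by
    intro v hv
    ext w
    rw [Finset.mem_filter, Finset.mem_filter, mem_att, List.mem_toFinset]
    constructor
    · rintro ⟨⟨h, -⟩, h'⟩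
      exact ⟨by simpa using h, h'⟩
    · rintro ⟨h, h'⟩
      exact ⟨⟨by simpa using h, v, (mem_comp.1 (hI hv)).2, h'.symm⟩, h'⟩
  rw [Finset.sum_congr rfl (fun v hv => by rw [h1 v hv])]
  exact Finset.sum_card_bipartiteAbove_eq_sum_card_bipartiteBelow (fun v w => G.Adj v w)

/-- `p` is not adjacent to the members -/
theorem not_adj_members {G : SimpleGraph V} {Z S' I : Finset V} {p : V}
    (hgood : ∀ v ∈ I, Good G Z S' v)
    (hclean : ∀ v ∈ I, G.Adj v p → ∃ x ∈ Z, x ≠ v ∧ G.Adj x p)
    (hnear : ∀ x ∈ Z, ∀ x' ∈ Z, G.Adj p x → G.Adj p x' → Near G Z S' x x') :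
    ∀ v ∈ I, ¬ G.Adj p v := by
  intro v hv hpv
  obtain ⟨x, hx, hxv, hxp⟩ := hclean v hv hpv.symm
  exact hxv (Good.near_eq (hgood v hv)
    (hnear v (hgood v hv).mem x hx hpv hxp.symm)).symm

/-- **the final inequality** -/
theorem sum_ineq [Fintype V] {G : SimpleGraph V} [DecidableRel G.Adj] {c : List V}
    {R K : Finset V} {S' I : V → Finset V} (hFam : Fam G [c]) (hR : Reps G [c] R) (hKR : K ⊆ R)
    (hI0 : ∀ y ∈ R, y ∉ K → I y = ∅)
    (hnear : ∀ y ∈ K, ∀ N ⊆ comp G [c] y, (∀ x ∈ N, ∀ x' ∈ N, Near G (comp G [c] y) (S' y) x x') →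
      ∑ v ∈ I y, dU G (comp G [c] y) v + N.card ≤ (comp G [c] y).card)
    {p : V}
    (hnp : ∀ y ∈ K, ∀ x ∈ comp G [c] y, ∀ x' ∈ comp G [c] y, G.Adj p x → G.Adj p x' →
      Near G (comp G [c] y) (S' y) x x')
    {T : V → ℕ} {nn : ℕ}
    (hT : ∀ y ∈ K, ∑ v ∈ I y, ((att G [c] y).filter (fun w => G.Adj v w)).card ≤ T y)
    (hp : p ∈ c) (hnn : dU G c.toFinset p + 1 + nn ≤ c.length)
    (hcount : ∀ a : V → ℕ, (∀ y ∈ K, a y ≤ 1) → (∀ y ∈ K, p ∉ att G [c] y → a y = 0) →
      ∑ y ∈ K, (T y + a y) ≤ nn + K.card) :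
    dU G Finset.univ p + ∑ y ∈ R, ∑ v ∈ I y,
        (dU G (comp G [c] y) v + ((att G [c] y).filter (fun w => G.Adj v w)).card) + 1 ≤
      [c].flatten.length + ∑ y ∈ R, (comp G [c] y).card := by
  classical
  have hfl : [c].flatten = c := by simp
  have h1 := hcount (fun y => if p ∈ att G [c] y then 1 else 0) (by
    intro y _
    split <;> omega) (by
    intro y _ h
    simp [h])
  rw [hR.deg p, hfl]
  -- one component of `K`
  have hK : ∀ y ∈ K, dU G (comp G [c] y) p + ∑ v ∈ I y,
      (dU G (comp G [c] y) v + ((att G [c] y).filter (fun w => G.Adj v w)).card) + 1 ≤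
      (comp G [c] y).card + (T y + if p ∈ att G [c] y then 1 else 0) := by
    intro y hy
    have hTy := hT y hy
    rw [Finset.sum_add_distrib]
    have hd : dU G (comp G [c] y) p = ((comp G [c] y).filter (fun x => G.Adj p x)).card := rfl
    have hN := hnear y hy ((comp G [c] y).filter (fun x => G.Adj p x)) (Finset.filter_subset _ _)
      (fun x hx x' hx' => hnp y hy x (Finset.mem_filter.1 hx).1 x' (Finset.mem_filter.1 hx').1
        (Finset.mem_filter.1 hx).2 (Finset.mem_filter.1 hx').2)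
    by_cases ha : p ∈ att G [c] y
    · rw [if_pos ha]
      omega
    · rw [if_neg ha]
      have h0 : ((comp G [c] y).filter (fun x => G.Adj p x)) = ∅ := by
        rw [Finset.filter_eq_empty_iff]
        intro x hx hpx
        exact ha (mem_att.2 ⟨by rw [hfl]; exact hp, x, (mem_comp.1 hx).2, hpx⟩)
      have hyc : y ∈ comp G [c] y := mem_comp.2 ⟨hR.sub (hKR hy), Relation.ReflTransGen.refl⟩
      have h2 := hnear y hy {y} (by simpa using hyc) (by
        intro x hx x' hx'
        rw [Finset.mem_singleton] at hx hx'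
        rw [hx, hx']
        exact near_refl _)
      rw [Finset.card_singleton] at h2
      rw [h0, Finset.card_empty] at hd
      omega
  -- sums over `R`
  have hR' : ∀ y ∈ R \ K, dU G (comp G [c] y) p + ∑ v ∈ I y,
      (dU G (comp G [c] y) v + ((att G [c] y).filter (fun w => G.Adj v w)).card) ≤
      (comp G [c] y).card := by
    intro y hy
    rw [Finset.mem_sdiff] at hy
    rw [hI0 y hy.1 hy.2, Finset.sum_empty]
    unfold dU
    rw [Nat.add_zero]
    exact Finset.card_filter_le _ _
  have hs : ∑ y ∈ R, dU G (comp G [c] y) p + ∑ y ∈ R, ∑ v ∈ I y,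
      (dU G (comp G [c] y) v + ((att G [c] y).filter (fun w => G.Adj v w)).card) + K.card ≤
      ∑ y ∈ R, (comp G [c] y).card +
        ∑ y ∈ K, (T y + if p ∈ att G [c] y then 1 else 0) := by
    rw [← Finset.sum_add_distrib, ← Finset.sum_sdiff hKR, ← Finset.sum_sdiff hKR]
    have e1 := Finset.sum_le_sum hR'
    have e2 : ∑ y ∈ K, (dU G (comp G [c] y) p + ∑ v ∈ I y,
        (dU G (comp G [c] y) v + ((att G [c] y).filter (fun w => G.Adj v w)).card)) + K.card ≤
        ∑ y ∈ K, (comp G [c] y).card +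
          ∑ y ∈ K, (T y + if p ∈ att G [c] y then 1 else 0) := by
      rw [← Finset.sum_add_distrib (f := fun y => (comp G [c] y).card), Finset.card_eq_sum_ones,
        ← Finset.sum_add_distrib]
      exact Finset.sum_le_sum hK
    omega
  omega

end Pool.Agent.H35P
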