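import Pool.Agent.H37F.Fan
import Pool.Agent.H62P.Pkg

/-!
# The path package at a 2-connected level: the members of the components of `H - c` and `p`
-/

set_option autoImplicit false

namespace Pool.Agent.H35P

open List Pool.Agent.TF82 Pool.Agent.TFC Pool.Agent.TFB Pool.Agent.TFN Pool.Agent.EG31
  Pool.Agent.H18C Pool.Agent.H37F

universe u

set_option linter.unusedSectionVars false
set_option linter.unusedVariables false

variable {V : Type u} [DecidableEq V]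

/-- `x` and `y` are joined in `H` by a path with at least `L` vertices -/
def Lnk (G : SimpleGraph V) (H : Finset V) (x y : V) (L : ℕ) : Prop :=
  ∃ Q : List V, Seg G Q x y ∧ Q.Nodup ∧ (∀ w ∈ Q, w ∈ H) ∧ L ≤ Q.length

theorem Lnk.symm {G : SimpleGraph V} {H : Finset V} {x y : V} {L : ℕ} (h : Lnk G H x y L) :
    Lnk G H y x L := by
  obtain ⟨Q, h1, h2, h3, h4⟩ := h
  exact ⟨Q.reverse, h1.rev, List.nodup_reverse.2 h2, fun w hw => h3 w (List.mem_reverse.1 hw),
    by rw [List.length_reverse]; exact h4⟩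

theorem Lnk.mono {G : SimpleGraph V} {H H' : Finset V} {x y : V} {L L' : ℕ} (h : Lnk G H x y L)
    (hH : H ⊆ H') (hL : L' ≤ L) : Lnk G H' x y L' := by
  obtain ⟨Q, h1, h2, h3, h4⟩ := h
  exact ⟨Q, h1, h2, fun w hw => hH (h3 w hw), hL.trans h4⟩

theorem Lnk.join {G : SimpleGraph V} {H H₁ H₂ : Finset V} {x a b y : V} {L L₁ L₂ : ℕ}
    (h : Lnk G H₁ x a L₁) (h' : Lnk G H₂ b y L₂) (hd : Disjoint H₁ H₂) (h1 : H₁ ⊆ H)
    (h2 : H₂ ⊆ H) (hab : G.Adj a b) (hL : L ≤ L₁ + L₂) : Lnk G H x y L := by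
  obtain ⟨P, p1, p2, p3, p4⟩ := h
  obtain ⟨Q, q1, q2, q3, q4⟩ := h'
  refine ⟨P ++ Q, p1.append q1 hab, ?_, ?_, ?_⟩
  · rw [List.nodup_append]
    refine ⟨p2, q2, ?_⟩
    rintro u hu w hw rfl
    exact Finset.disjoint_left.1 hd (p3 u hu) (q3 u hw)
  · intro w hw
    rcases List.mem_append.1 hw with hw | hw
    · exact h1 (p3 w hw)
    · exact h2 (q3 w hw)
  · rw [List.length_append]
    omega

theorem Lnk.of_reach {G : SimpleGraph V} {H : Finset V} {x y : V} (h : Reach G H x y)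
    (hx : x ∈ H) : Lnk G H x y 1 := by
  obtain ⟨q, h1, h2, h3⟩ := seg_of_reach h hx
  exact ⟨q, h1, h2, h3, h1.pos⟩

/-- the first clause of the package -/
def P1 (G : SimpleGraph V) (H S : Finset V) (b : ℕ) (I : Finset V) : Prop :=
  ∀ M ⊆ I, M.Nonempty → ∃ v ∈ M, ∀ x ∈ H, x ≠ v → Lnk G H v x (b + 1 + M.card + min 1 S.card)

/-- the second clause of the package -/
def P2 (G : SimpleGraph V) (H S : Finset V) (b : ℕ) (I : Finset V) : Prop :=
  ∀ M ⊆ I, ∀ M' ⊆ I, M.Nonempty → M'.Nonempty → ¬ (M = M' ∧ M.card = 1) →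
    ∃ v ∈ M, ∃ v' ∈ M', v ≠ v' ∧ Lnk G H v v' (2 * b + M.card + M'.card + 2 * min 1 S.card)

/-- the pieces of `H - c` -/
structure Pcs {ι : Type*} (G : SimpleGraph V) (H : Finset V) (c : List V) (R : Finset ι)
    (Z : ι → Finset V) : Prop where
  cyc : CycL G c
  cH : ∀ w ∈ c, w ∈ H
  sub : ∀ y ∈ R, Z y ⊆ H
  nc : ∀ y ∈ R, ∀ z ∈ Z y, z ∉ c
  dis : ∀ y ∈ R, ∀ y' ∈ R, y ≠ y' → Disjoint (Z y) (Z y')
  cl : ∀ y ∈ R, ∀ a ∈ Z y, ∀ w ∈ H, G.Adj a w → w ∈ Z y ∨ w ∈ c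
  conn : ∀ y ∈ R, Conn1 G (Z y)
  all : ∀ x ∈ H, x ∈ c ∨ ∃ y ∈ R, x ∈ Z y

namespace Pcs

variable {ι : Type*} {G : SimpleGraph V} {H : Finset V} {c : List V} {R : Finset ι}
  {Z : ι → Finset V}

/-- an edge from the piece to the cycle which avoids a vertex of the cycle -/
theorem edge (h : Pcs G H c R Z) (h2 : Conn2 G H) {y : ι} (hy : y ∈ R) {v p : V}
    (hv : v ∈ Z y) (hp : p ∈ c) : ∃ a ∈ Z y, ∃ w ∈ c, w ≠ p ∧ G.Adj a w := by
  by_contra hcon
  push Not at hcon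
  obtain ⟨w, hw, hwp⟩ : ∃ w ∈ c, w ≠ p := by
    by_contra hc
    push Not at hc
    have h3 : c.toFinset ⊆ {p} := fun x hx => by
      rw [Finset.mem_singleton]
      exact hc x (List.mem_toFinset.1 hx)
    have h4 := Finset.card_le_card h3
    rw [List.toFinset_card_of_nodup h.cyc.1, Finset.card_singleton] at h4
    have := h.cyc.2.1
    omega
  have hvp : v ≠ p := fun he => h.nc y hy v hv (he ▸ hp)
  have hr := h2 p (h.cH p hp) v (Finset.mem_erase.2 ⟨hvp, h.sub y hy hv⟩) w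
    (Finset.mem_erase.2 ⟨hwp, h.cH w hw⟩)
  have hwZ : w ∈ Z y := by
    refine closed_reach (S := H.erase p) (T := Z y) ?_ hr hv
    intro a ha x hx hax
    rcases h.cl y hy a ha x (Finset.mem_of_mem_erase hx) hax with h3 | h3
    · exact h3
    · exact absurd hax (hcon a ha x h3 (Finset.mem_erase.1 hx).1)
  exact h.nc y hy w hwZ hw

/-- a member is left through another vertex of its piece -/
theorem exit (h : Pcs G H c R Z) (h2 : Conn2 G H) {y : ι} (hy : y ∈ R) {v p : V}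
    (hv : v ∈ Z y) (hcl : ∀ w ∈ c, G.Adj v w → ∃ x ∈ Z y, x ≠ v ∧ G.Adj x w) (hp : p ∈ c) :
    ∃ a ∈ Z y, a ≠ v ∧ ∃ w ∈ c, w ≠ p ∧ G.Adj a w := by
  obtain ⟨a, ha, w, hw, hwp, haw⟩ := h.edge h2 hy hv hp
  by_cases hav : a = v
  · obtain ⟨x, hx, hxv, hxw⟩ := hcl w hw (hav ▸ haw)
    exact ⟨x, hx, hxv, w, hw, hwp, hxw⟩
  · exact ⟨a, ha, hav, w, hw, hwp, haw⟩

theorem reach_c (h : Pcs G H c R Z) {w w' : V} (hw : w ∈ c) (hw' : w' ∈ c) :
    Lnk G c.toFinset w w' 1 := by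
  by_cases he : w = w'
  · subst he
    exact ⟨[w], seg_single G w, by simp, by simpa using hw, by simp⟩
  · obtain ⟨M, m1, m2, m3, m4⟩ := arc h.cyc hw hw' he
    exact ⟨M, m1, m2, fun x hx => List.mem_toFinset.2 (m3 x hx), m1.pos⟩

/-- everything outside a piece is reached from the cycle without meeting the piece -/
theorem outside (h : Pcs G H c R Z) (h2 : Conn2 G H) {y : ι} (hy : y ∈ R) {w x : V}
    (hw : w ∈ c) (hx : x ∈ H) (hxy : x ∉ Z y) : Lnk G (H \ Z y) w x 1 := by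
  have hcs : c.toFinset ⊆ H \ Z y := by
    intro a ha
    rw [List.mem_toFinset] at ha
    exact Finset.mem_sdiff.2 ⟨h.cH a ha, fun h3 => h.nc y hy a h3 ha⟩
  rcases h.all x hx with hxc | ⟨y', hy', hxy'⟩
  · exact (h.reach_c hw hxc).mono hcs le_rfl
  · have hne : y ≠ y' := fun he => hxy (he ▸ hxy')
    obtain ⟨a, ha, w', hw', -, haw⟩ := h.edge h2 hy' hxy' hw
    have h3 : Lnk G (Z y') a x 1 := Lnk.of_reach (h.conn y' hy' a ha x hxy') ha
    refine (h.reach_c hw hw').join h3 ?_ hcs ?_ haw.symm (by omega)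
    · rw [Finset.disjoint_left]
      intro z hz hz'
      exact h.nc y' hy' z hz' (List.mem_toFinset.1 hz)
    · intro z hz
      exact Finset.mem_sdiff.2 ⟨h.sub y' hy' hz, fun hzy =>
        Finset.disjoint_left.1 (h.dis y hy y' hy' hne) hzy hz⟩

end Pcs

/-- the data at a 2-connected level -/
structure Lev {ι : Type*} [DecidableEq ι] (G : SimpleGraph V) (H W : Finset V) (b : ℕ)
    (c : List V) (R : Finset ι) (Z S' I : ι → Finset V) (bb : ι → ℕ) : Prop where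
  pcs : Pcs G H c R Z
  c2 : Conn2 G H
  IZ : ∀ y ∈ R, I y ⊆ Z y
  clean : ∀ y ∈ R, ∀ v ∈ I y, ∀ w ∈ c, G.Adj v w → ∃ x ∈ Z y, x ≠ v ∧ G.Adj x w
  WS : ∀ y ∈ R, W ∩ Z y ⊆ S' y
  sur : ∀ y ∈ R, (I y).Nonempty → b + ∑ j ∈ R.erase y, (I j).card + (W \ Z y).card ≤ bb y
  p1 : ∀ y ∈ R, P1 G (Z y) (S' y) (bb y) (I y)
  p2 : ∀ y ∈ R, P2 G (Z y) (S' y) (bb y) (I y)

namespace Lev

variable {ι : Type*} [DecidableEq ι] {G : SimpleGraph V} {H W : Finset V} {b : ℕ}
  {c : List V} {R : Finset ι} {Z S' I : ι → Finset V} {bb : ι → ℕ}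

theorem card_le (h : Lev G H W b c R Z S' I bb) {M : Finset V} (hM : M ⊆ R.biUnion I) {y : ι}
    (hy : y ∈ R) : M.card ≤ (M ∩ I y).card + ∑ j ∈ R.erase y, (I j).card := by
  have h1 : M ⊆ (M ∩ I y) ∪ (R.erase y).biUnion I := by
    intro x hx
    obtain ⟨j, hj, hxj⟩ := Finset.mem_biUnion.1 (hM hx)
    by_cases hjy : j = y
    · exact Finset.mem_union_left _ (Finset.mem_inter.2 ⟨hx, hjy ▸ hxj⟩)
    · exact Finset.mem_union_right _ (Finset.mem_biUnion.2 ⟨j, Finset.mem_erase.2 ⟨hjy, hj⟩, hxj⟩)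
  calc M.card ≤ _ := Finset.card_le_card h1
    _ ≤ (M ∩ I y).card + ((R.erase y).biUnion I).card := Finset.card_union_le _ _
    _ ≤ _ := Nat.add_le_add_left Finset.card_biUnion_le _

/-- the numbers: what a piece gives -/
theorem num (h : Lev G H W b c R Z S' I bb) {M : Finset V} (hM : M ⊆ R.biUnion I) {y : ι}
    (hy : y ∈ R) (hMy : (M ∩ I y).Nonempty) :
    b + M.card + (W \ Z y).card ≤ bb y + (M ∩ I y).card ∧
      min 1 W.card ≤ (W \ Z y).card + min 1 (S' y).card := by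
  have h1 := h.card_le hM hy
  have h2 := h.sur y hy (hMy.mono Finset.inter_subset_right)
  refine ⟨by omega, ?_⟩
  have h3 := Finset.card_le_card (h.WS y hy)
  have h4 : W.card = (W \ Z y).card + (W ∩ Z y).card := by
    rw [Finset.card_sdiff_add_card_inter]
  omega

/-- from a member to everything, when the chosen piece is `y` -/
theorem from_piece (h : Lev G H W b c R Z S' I bb) {M : Finset V} (hM : M ⊆ R.biUnion I) {y : ι}
    (hy : y ∈ R) (hMy : (M ∩ I y).Nonempty) : ∃ v ∈ M, v ∈ I y ∧ ∀ x ∈ Z y, x ≠ v →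
      Lnk G (Z y) v x (b + 1 + M.card + (W \ Z y).card + min 1 (S' y).card) := by
  obtain ⟨v, hv, hx⟩ := h.p1 y hy (M ∩ I y) Finset.inter_subset_right hMy
  have hn := (h.num hM hy hMy).1
  refine ⟨v, (Finset.mem_inter.1 hv).1, (Finset.mem_inter.1 hv).2, ?_⟩
  intro x hxZ hxv
  exact (hx x hxZ hxv).mono (Finset.Subset.refl _) (by omega)

theorem exists_piece (h : Lev G H W b c R Z S' I bb) {M : Finset V} (hM : M ⊆ R.biUnion I)
    (hne : M.Nonempty) : ∃ y ∈ R, (M ∩ I y).Nonempty := by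
  obtain ⟨x, hx⟩ := hne
  obtain ⟨y, hy, hxy⟩ := Finset.mem_biUnion.1 (hM hx)
  exact ⟨y, hy, x, Finset.mem_inter.2 ⟨hx, hxy⟩⟩

theorem erase_sub {I₀ : Finset V} {p : V} (hI : I₀ ⊆ insert p (R.biUnion I)) {M : Finset V}
    (hM : M ⊆ I₀) : M.erase p ⊆ R.biUnion I := by
  intro x hx
  rcases Finset.mem_insert.1 (hI (hM (Finset.mem_of_mem_erase hx))) with h1 | h1
  · exact absurd h1 (Finset.mem_erase.1 hx).1
  · exact h1

theorem not_mem_sub {I₀ : Finset V} {p : V} (hI : I₀ ⊆ insert p (R.biUnion I)) {M : Finset V}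
    (hM : M ⊆ I₀) (hp : p ∉ M) : M ⊆ R.biUnion I := by
  have := erase_sub hI hM
  rwa [Finset.erase_eq_of_notMem hp] at this

/-- **(P1)** -/
theorem cyc_p1 (h : Lev G H W b c R Z S' I bb) {f : ℕ} {p : V} (hp : p ∈ c)
    (hg : ∀ x ∈ H, ∀ x' ∈ H, x ≠ x' → Lnk G H x x' (f + b + 2)) {I₀ : Finset V}
    (hI : I₀ ⊆ insert p (R.biUnion I)) (hf : I₀.card ≤ f) : P1 G H W b I₀ := by
  intro M hM hne
  have hMf : M.card ≤ f := (Finset.card_le_card hM).trans hf
  by_cases hpM : p ∈ M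
  · refine ⟨p, hpM, fun x hx hxp => ?_⟩
    have h3 := hg p (h.pcs.cH p hp) x hx hxp.symm
    exact h3.mono (Finset.Subset.refl _) (by omega)
  · have hMs := not_mem_sub hI hM hpM
    obtain ⟨y, hy, hMy⟩ := h.exists_piece hMs hne
    obtain ⟨v, hvM, hvI, hv⟩ := h.from_piece hMs hy hMy
    have hn := (h.num hMs hy hMy).2
    refine ⟨v, hvM, fun x hx hxv => ?_⟩
    by_cases hxy : x ∈ Z y
    · exact (hv x hxy hxv).mono (h.pcs.sub y hy) (by omega)
    · obtain ⟨a, ha, hav, w, hw, -, haw⟩ := h.pcs.exit h.c2 hy (h.IZ y hy hvI)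
        (h.clean y hy v hvI) hp
      exact (hv a ha hav).join (h.pcs.outside h.c2 hy hw hx hxy) Finset.disjoint_sdiff
        (h.pcs.sub y hy) Finset.sdiff_subset haw (by omega)

/-- **(P2)** when `p` is in the first set -/
theorem cyc_p2_aux (h : Lev G H W b c R Z S' I bb) {f : ℕ} {p : V} (hp : p ∈ c)
    (hc : 2 * (f + b) + 2 ≤ c.length) {I₀ : Finset V}
    (hI : I₀ ⊆ insert p (R.biUnion I)) (hf : I₀.card ≤ f) {M M' : Finset V} (hM : M ⊆ I₀)
    (hM' : M' ⊆ I₀) (hpM : p ∈ M) (hne : (M'.erase p).Nonempty) :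
    ∃ v' ∈ M', p ≠ v' ∧ Lnk G H p v' (2 * b + M.card + M'.card + 2 * min 1 W.card) := by
  have hMf : M.card ≤ f := (Finset.card_le_card hM).trans hf
  have hMs := erase_sub (R := R) (I := I) hI hM'
  obtain ⟨y, hy, hMy⟩ := h.exists_piece hMs hne
  obtain ⟨v, hvM, hvI, hv⟩ := h.from_piece hMs hy hMy
  have hn := (h.num hMs hy hMy).2
  have hcard : M'.card ≤ (M'.erase p).card + 1 := by
    have := Finset.pred_card_le_card_erase (s := M') (a := p)
    omega
  obtain ⟨a, ha, hav, w, hw, hwp, haw⟩ := h.pcs.exit h.c2 hy (h.IZ y hy hvI)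
    (h.clean y hy v hvI) hp
  obtain ⟨A, a1, a2, a3, a4⟩ := arc h.pcs.cyc hp hw hwp.symm
  have hA : Lnk G c.toFinset p w (f + b + 2) :=
    ⟨A, a1, a2, fun x hx => List.mem_toFinset.2 (a3 x hx), by omega⟩
  refine ⟨v, Finset.mem_of_mem_erase hvM, (Finset.mem_erase.1 hvM).1.symm, ?_⟩
  refine hA.join (hv a ha hav).symm ?_ ?_ (h.pcs.sub y hy) haw.symm (by omega)
  · rw [Finset.disjoint_left]
    intro z hz hz'
    exact h.pcs.nc y hy z hz' (List.mem_toFinset.1 hz)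
  · intro z hz
    exact h.pcs.cH z (List.mem_toFinset.1 hz)

/-- **(P2)** for two different pieces -/
theorem cyc_p2_two (h : Lev G H W b c R Z S' I bb) {p : V} (hp : p ∈ c) {M M' : Finset V}
    (hM : M ⊆ R.biUnion I)
    (hM' : M' ⊆ R.biUnion I) {y y' : ι} (hy : y ∈ R) (hy' : y' ∈ R) (hyy : y ≠ y')
    (hMy : (M ∩ I y).Nonempty) (hMy' : (M' ∩ I y').Nonempty) :
    ∃ v ∈ M, ∃ v' ∈ M', v ≠ v' ∧ Lnk G H v v' (2 * b + M.card + M'.card + 2 * min 1 W.card) := by
  obtain ⟨v, hvM, hvI, hv⟩ := h.from_piece hM hy hMy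
  obtain ⟨v', hvM', hvI', hv'⟩ := h.from_piece hM' hy' hMy'
  have hn := (h.num hM hy hMy).2
  have hn' := (h.num hM' hy' hMy').2
  obtain ⟨a, ha, hav, w, hw, -, haw⟩ := h.pcs.exit h.c2 hy (h.IZ y hy hvI)
    (h.clean y hy v hvI) hp
  obtain ⟨a', ha', hav', w', hw', -, haw'⟩ := h.pcs.exit h.c2 hy' (h.IZ y' hy' hvI')
    (h.clean y' hy' v' hvI') hp
  have hdis := h.pcs.dis y hy y' hy' hyy
  have hdc : ∀ j ∈ R, Disjoint (Z j) c.toFinset := by
    intro j hj
    rw [Finset.disjoint_left]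
    intro z hz hz'
    exact h.pcs.nc j hj z hz (List.mem_toFinset.1 hz')
  have hcH : c.toFinset ⊆ H := fun z hz => h.pcs.cH z (List.mem_toFinset.1 hz)
  refine ⟨v, hvM, v', hvM', ?_, ?_⟩
  · rintro rfl
    exact Finset.disjoint_left.1 hdis (h.IZ y hy hvI) (h.IZ y' hy' hvI')
  · have h1 : Lnk G (c.toFinset ∪ Z y') w v' (1 + (b + 1 + M'.card + (W \ Z y').card +
        min 1 (S' y').card)) :=
      (h.pcs.reach_c hw hw').join (hv' a' ha' hav').symm (hdc y' hy').symm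
        Finset.subset_union_left Finset.subset_union_right haw'.symm le_rfl
    refine (hv a ha hav).join h1 ?_ (h.pcs.sub y hy)
      (Finset.union_subset hcH (h.pcs.sub y' hy')) haw (by omega)
    rw [Finset.disjoint_union_right]
    exact ⟨hdc y hy, hdis⟩

/-- **(P2)** -/
theorem cyc_p2 (h : Lev G H W b c R Z S' I bb) {f : ℕ} {p : V} (hp : p ∈ c)
    (hc : 2 * (f + b) + 2 ≤ c.length) {I₀ : Finset V}
    (hI : I₀ ⊆ insert p (R.biUnion I)) (hf : I₀.card ≤ f) : P2 G H W b I₀ := by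
  intro M hM M' hM' hne hne' hMM
  by_cases hpM : p ∈ M
  · by_cases hE : (M'.erase p).Nonempty
    · obtain ⟨v', h1, h2, h3⟩ := h.cyc_p2_aux hp hc hI hf hM hM' hpM hE
      exact ⟨p, hpM, v', h1, h2, h3⟩
    · -- `M' = {p}`
      rw [Finset.not_nonempty_iff_eq_empty] at hE
      have hM'p : M' = {p} := by
        rcases Finset.eq_empty_or_nonempty M' with h0 | h0
        · exact absurd h0 hne'.ne_empty
        · rwa [Finset.erase_eq_empty_iff, or_iff_right h0.ne_empty] at hE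
      have hpM' : p ∈ M' := by rw [hM'p]; simp
      have hE' : (M.erase p).Nonempty := by
        by_contra hcon
        rw [Finset.not_nonempty_iff_eq_empty, Finset.erase_eq_empty_iff,
          or_iff_right hne.ne_empty] at hcon
        exact hMM ⟨by rw [hcon, hM'p], by rw [hcon]; simp⟩
      obtain ⟨v, h1, h2, h3⟩ := h.cyc_p2_aux hp hc hI hf hM' hM hpM' hE'
      exact ⟨v, h1, p, hpM', h2.symm, h3.symm.mono (Finset.Subset.refl _) (by omega)⟩
  · by_cases hpM' : p ∈ M'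
    · have hE' : (M.erase p).Nonempty := by rwa [Finset.erase_eq_of_notMem hpM]
      obtain ⟨v, h1, h2, h3⟩ := h.cyc_p2_aux hp hc hI hf hM' hM hpM' hE'
      exact ⟨v, h1, p, hpM', h2.symm, h3.symm.mono (Finset.Subset.refl _) (by omega)⟩
    · have hMs := not_mem_sub hI hM hpM
      have hMs' := not_mem_sub hI hM' hpM'
      by_cases hex : ∃ y ∈ R, ∃ y' ∈ R, y ≠ y' ∧ (M ∩ I y).Nonempty ∧ (M' ∩ I y').Nonempty
      · obtain ⟨y, hy, y', hy', hyy, h1, h2⟩ := hex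
        exact h.cyc_p2_two hp hMs hMs' hy hy' hyy h1 h2
      · push Not at hex
        obtain ⟨y, hy, hMy⟩ := h.exists_piece hMs hne
        obtain ⟨y', hy', hMy'⟩ := h.exists_piece hMs' hne'
        have hyy : y = y' := by
          by_contra hne2
          exact hMy'.ne_empty (hex y hy y' hy' hne2 hMy)
        subst hyy
        have hsubM : M ⊆ I y := by
          intro x hx
          obtain ⟨j, hj, hxj⟩ := Finset.mem_biUnion.1 (hMs hx)
          by_cases hjy : j = y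
          · exact hjy ▸ hxj
          · exact absurd (hex j hj y hy hjy ⟨x, Finset.mem_inter.2 ⟨hx, hxj⟩⟩) hMy'.ne_empty
        have hsubM' : M' ⊆ I y := by
          intro x hx
          obtain ⟨j, hj, hxj⟩ := Finset.mem_biUnion.1 (hMs' hx)
          by_cases hjy : j = y
          · exact hjy ▸ hxj
          · have h5 := hex y hy j hj (fun e => hjy e.symm) hMy
            have : x ∈ M' ∩ I j := Finset.mem_inter.2 ⟨hx, hxj⟩
            rw [h5] at this
            simp at this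
        obtain ⟨v, hv, v', hv', hvv, hl⟩ := h.p2 y hy M hsubM M' hsubM' hne hne' hMM
        have hn := h.sur y hy (hne.mono hsubM)
        have hn2 := (h.num hMs hy hMy).2
        exact ⟨v, hv, v', hv', hvv, hl.mono (h.pcs.sub y hy) (by omega)⟩

end Lev

/-- the components of `V - c` are pieces -/
theorem pcs_of_reps [Fintype V] {G : SimpleGraph V} {c : List V} {R : Finset V}
    (hc : CycL G c) (hR : H62P.Reps G [c] R) : Pcs G Finset.univ c R (comp G [c]) := by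
  have hunc : ∀ x, x ∈ unc [c] ↔ x ∉ c := by
    intro x
    rw [mem_unc]
    simp
  refine ⟨hc, fun w _ => Finset.mem_univ _, fun y _ => Finset.subset_univ _, ?_, hR.dis, ?_, ?_, ?_⟩
  · intro y hy z hz
    exact (hunc z).1 (mem_comp.1 hz).1
  · intro y hy a ha w _ haw
    by_cases hw : w ∈ c
    · exact Or.inr hw
    · left
      have ha' := mem_comp.1 ha
      have hwu := (hunc w).2 hw
      exact mem_comp.2 ⟨hwu, Relation.ReflTransGen.tail ha'.2 ⟨ha'.1, hwu, haw⟩⟩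
  · intro y hy
    -- connected
    have key : ∀ a ∈ comp G [c] y, Reach G (comp G [c] y) y a := by
      intro a ha
      have ha' := mem_comp.1 ha
      have hyu := hR.sub hy
      obtain ⟨q, q1, q2, q3⟩ := seg_of_reach ha'.2 hyu
      refine reach_of_seg q1 ?_
      intro z hz
      obtain ⟨A, B, rfl⟩ := List.append_of_mem hz
      refine mem_comp.2 ⟨q3 z hz, reach_of_seg (seg_prefix q1) ?_⟩
      intro u hu
      apply q3
      simp at hu ⊢
      tauto
    intro a ha b hb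
    exact Relation.ReflTransGen.trans (Reach.symm (key a ha)) (key b hb)
  · intro x _
    by_cases hx : x ∈ c
    · exact Or.inl hx
    · exact Or.inr (hR.cov x ((hunc x).2 hx))

/-- **The cycle step of the path package**, in the language of `H62P.Pkg`. -/
theorem cyc_pkg [Fintype V] {G : SimpleGraph V} {c : List V} {R W : Finset V} {b f : ℕ}
    {S' I : V → Finset V} {bb : V → ℕ}
    (hc : CycL G c) (hR : H62P.Reps G [c] R) (h2 : Conn2 G Finset.univ)
    (hIZ : ∀ y ∈ R, I y ⊆ comp G [c] y)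
    (hclean : ∀ y ∈ R, ∀ v ∈ I y, ∀ w ∈ c, G.Adj v w → ∃ x ∈ comp G [c] y, x ≠ v ∧ G.Adj x w)
    (hWS : ∀ y ∈ R, W ∩ comp G [c] y ⊆ S' y)
    (hsur : ∀ y ∈ R, (I y).Nonempty →
      b + ∑ j ∈ R.erase y, (I j).card + (W \ comp G [c] y).card ≤ bb y)
    (hp1 : ∀ y ∈ R, (I y).Nonempty → H62P.P1 G (comp G [c] y) (S' y) (bb y) (I y))
    (hp2 : ∀ y ∈ R, (I y).Nonempty → H62P.P2 G (comp G [c] y) (S' y) (bb y) (I y))
    (hlen : 2 * (f + b) + 2 ≤ c.length)
    (hgam : ∀ x x', x ≠ x' → H62P.Pth G Finset.univ x x' (f + b + 2))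
    {p : V} (hp : p ∈ c) {I₀ : Finset V} (hI₀ : I₀ ⊆ insert p (R.biUnion I)) (hf : I₀.card ≤ f) :
    H62P.P1 G Finset.univ W b I₀ ∧ H62P.P2 G Finset.univ W b I₀ := by
  have hL : Lev G Finset.univ W b c R (comp G [c]) S' I bb := by
    refine ⟨pcs_of_reps hc hR, h2, hIZ, hclean, hWS, hsur, ?_, ?_⟩
    · intro y hy M hM hne
      exact hp1 y hy (hne.mono hM) M hM hne
    · intro y hy M hM M' hM' hne
      exact hp2 y hy (hne.mono hM) M hM M' hM' hne
  exact ⟨hL.cyc_p1 hp (fun x _ x' _ hne => hgam x x' hne) hI₀ hf, hL.cyc_p2 hp hlen hI₀ hf⟩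

end Pool.Agent.H35P
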