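import Pool.Agent.H82M.DatG
import Pool.Agent.H62P.MainFin
import Pool.Agent.H93L.Parts
import Pool.Agent.H6T.Lab4
import Pool.Agent.H17P.Gam
import Pool.Agent.H35P.Sum
import Pool.Agent.H40C.One
import Pool.Agent.H55L.TwoLinked

/-!
# The 2-connected step
-/

set_option autoImplicit false

namespace Pool.Agent.H35P

open List Pool.Agent.TF82 Pool.Agent.TFC Pool.Agent.TFB Pool.Agent.EG31
  Pool.Agent.H18C Pool.Agent.H62P Pool.Agent.TFG Pool.Agent.H72N

universe u

set_option linter.unusedSectionVars false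
set_option linter.unusedVariables false

/-- the 2-connected step (independent assembly) -/
theorem mainStepP : MainStepP.{u} := by
  intro V _ _ G _ S b f hK hf h2 hIH
  classical
  have hpos := hK.pos hf
  by_cases hf1 : f = 1
  · subst hf1
    exact H40C.pkg_one hK h2
  have hf2 : 2 ≤ f := by omega
  obtain ⟨c, hM⟩ := exists_main_cycle hK.cw hK.ne
  obtain ⟨R, hR⟩ := H62P.exists_reps G [c]
  have hc : CycL G c := hM.fam.cyc c (by simp)
  have hfl : ([c] : List (List V)).flatten = c := by simp
  have hCb : CWb G Finset.univ S b := (H82M.cwg_of_kb hK).cwb_of_conn2 h2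
  have hlab : H93L.LabP G S b [c] := fun J h1 h3 h4 h5 =>
    H6T.Lab.lab (F := [c]) hCb h2 hM rfl h1 h3 h4 h5
  obtain ⟨I, bb, hP⟩ := H93L.exists_parts hK hf hIH hM hR hlab
  obtain ⟨hlen, hgam⟩ := H17P.gam_glue h2 hM hR
    (fun y hy hne => hP.pkg y hy (hP.ne_of_mem hy hne.choose_spec)) hP.sur hP.tot hf2
  -- the components which are not inside `S`
  set K : Finset V := R.filter (fun y => (comp G [c] y \ S).Nonempty) with hKdef
  have hKR : K ⊆ R := Finset.filter_subset _ _
  have hKne : ∀ y ∈ K, (comp G [c] y \ S).Nonempty := fun y hy => (Finset.mem_filter.1 hy).2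
  have hoff : ∀ y ∈ R, y ∉ K → I y = ∅ := fun y hy hyK =>
    hP.emp y hy (fun h => hyK (Finset.mem_filter.2 ⟨hy, h⟩))
  have hKnon : K.Nonempty := by
    by_contra hcon
    rw [Finset.not_nonempty_iff_eq_empty] at hcon
    have h0 : ∑ y ∈ R, (I y).card = 0 := by
      refine Finset.sum_eq_zero (fun y hy => ?_)
      rw [hoff y hy (by rw [hcon]; simp), Finset.card_empty]
    have := hP.tot
    omega
  have hm : ∀ y ∈ K, 1 ≤ (I y).card := fun y hy =>
    Finset.card_pos.2 (hP.pos y (hKR hy) (hKne y hy))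
  have hB : ∀ y ∈ K, ∑ z ∈ K.erase y, (I z).card + (S ∩ ([c] : List (List V)).flatten.toFinset).card
      ≤ bb y := by
    intro y hy
    rw [hP.bbd y (hKR hy)]
    have e1 : ∑ z ∈ K.erase y, (I z).card ≤ ∑ z ∈ R.erase y, (I z).card :=
      Finset.sum_le_sum_of_subset (Finset.erase_subset_erase _ hKR)
    have e2 : (S ∩ ([c] : List (List V)).flatten.toFinset).card ≤ (S \ comp G [c] y).card := by
      apply Finset.card_le_card
      intro x hx
      obtain ⟨h3, h4⟩ := Finset.mem_inter.1 hx
      exact Finset.mem_sdiff.2 ⟨h3, fun h5 => mem_unc.1 (mem_comp.1 h5).1 (List.mem_toFinset.1 h4)⟩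
    omega
  have hKcard : ∀ y ∈ K, K.card ≤ ∑ z ∈ K.erase y, (I z).card + 1 := by
    intro y hy
    have h1 : (K.erase y).card ≤ ∑ z ∈ K.erase y, (I z).card := by
      rw [Finset.card_eq_sum_ones]
      exact Finset.sum_le_sum (fun z hz => hm z (Finset.mem_of_mem_erase hz))
    rw [Finset.card_erase_of_mem hy] at h1
    omega
  -- the cycle is long
  have hN : K.card + 2 + (S ∩ ([c] : List (List V)).flatten.toFinset).card <
      ([c] : List (List V)).flatten.toFinset.card := by
    obtain ⟨y, hy⟩ := hKnon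
    have hyR := hKR hy
    have hkb := hP.kb y hyR (hKne y hy)
    obtain ⟨v, hv⟩ : (I y).Nonempty := hP.pos y hyR (hKne y hy)
    have hg := hP.good hyR hv
    have hpcs := pcs_of_reps hc hR
    have hd := hkb.cw {v} (by
      intro x hx
      rw [Finset.mem_singleton] at hx
      rw [hx]
      exact Finset.mem_sdiff.2 ⟨hg.mem, hg.nS⟩) (by simp) v (by simp)
    have hdc : dU G (comp G [c] y) v ≤ (comp G [c] y).card := Finset.card_filter_le _ _
    rw [Finset.card_singleton] at hd
    obtain ⟨a, ha, a', ha', u, hu, u', hu', huu, hua, hua', hnear⟩ :=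
      H55L.two_linked (C := c.toFinset) h2 (Finset.subset_univ _) (by
        rw [List.toFinset_card_of_nodup hc.1]
        have := hc.2.1
        omega) (Finset.subset_univ _)
        (fun z hz => by
          rw [List.mem_toFinset]
          exact hpcs.nc y hyR z hz) (hpcs.conn y hyR)
        (fun w hw z hz hwz => by
          rw [List.mem_toFinset]
          exact hpcs.cl y hyR w hw z hz hwz) (by omega) hg
    obtain ⟨Q, q1, q2, q3, q4⟩ := near_linkg hkb.con hkb.sub (H82M.cwg_of_kb hkb) ha ha' hnear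
    have hlk : Link G [c] y (bb y + 3) u u' := ⟨Q, a, a', q1, q2, q3, q4, hua, hua'⟩
    have huF : u ∈ ([c] : List (List V)).flatten := by rw [hfl]; exact List.mem_toFinset.1 hu
    have huF' : u' ∈ ([c] : List (List V)).flatten := by rw [hfl]; exact List.mem_toFinset.1 hu'
    obtain ⟨i, hi, hiu⟩ := TFA.exists_back hM.fam rfl huF huF'
    have hfar := link_far (F := [c]) hM huF hlk.symm huu
    have hi2 : bb y + 3 < i := by
      by_contra hcon
      exact hfar i (by omega) hiu
    rw [List.toFinset_card_of_nodup hM.fam.nod]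
    have e1 := hB y hy
    have e2 := hKcard y hy
    omega
  have hSit : H82M.Sit G S [c] K (fun y => (I y).card) bb I :=
    { hM := hM
      hF1 := rfl
      h2 := h2
      KU := fun y hy => hR.sub (hKR hy)
      no := fun y hy y' hy' hne h => by
        have hyc : y' ∈ comp G [c] y' :=
          mem_comp.2 ⟨hR.sub (hKR hy'), Relation.ReflTransGen.refl⟩
        exact Finset.disjoint_left.1 (hR.dis y (hKR hy) y' (hKR hy') hne) h hyc
      hm := hm
      pk := fun y hy => hP.pkg y (hKR hy) (hKne y hy)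
      kb := fun y hy => hP.kb y (hKR hy) (hKne y hy)
      hB := hB
      hN := hN }
  obtain ⟨p, hpC, hpS, hpstr, hcount⟩ := hSit.dat.count hKnon
  have hpc : p ∈ c := by
    have : p ∈ ([c] : List (List V)).flatten := List.mem_toFinset.1 hpC
    rwa [hfl] at this
  have hnp : ∀ y ∈ K, ∀ x ∈ comp G [c] y, ∀ x' ∈ comp G [c] y, G.Adj p x → G.Adj p x' →
      Near G (comp G [c] y) (H6T.Lab.Sp G S [c] (comp G [c] y)) x x' := by
    intro y hy x hx x' hx' h1 h3
    by_contra hcon
    exact hpstr y hy ⟨by rw [hfl]; exact hpc, x, hx, x', hx', h1, h3, hcon⟩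
  have hpI : ∀ y ∈ R, ∀ v ∈ I y, ¬ G.Adj p v := by
    intro y hy
    by_cases hyK : y ∈ K
    · exact not_adj_members (fun v hv => hP.good hy hv)
        (fun v hv hvp => hP.clean y hy v hv p hpc hvp) (hnp y hyK)
    · intro v hv
      rw [hoff y hy hyK] at hv
      simp at hv
  have hsum := sum_ineq (S' := fun y => H6T.Lab.Sp G S [c] (comp G [c] y))
    (T := fun y => ∑ w ∈ c.toFinset, ((I y).filter (fun v => G.Adj w v)).card)
    (nn := hSit.dat.nn p) hM.fam hR hKR hoff
    (fun y hy => (hP.pkg y (hKR hy) (hKne y hy)).near) hnp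
    (fun y hy => by
      rw [double (hP.sub y (hKR hy))]
      refine le_of_eq (Finset.sum_congr rfl fun w _ => ?_)
      congr 1
      ext v
      rw [Finset.mem_filter, Finset.mem_filter, G.adj_comm])
    hpc
    (nn_add (F := c.toFinset.filter (fun z => z ≠ p ∧ ¬ G.Adj p z)) hc.1 hpc (by
      intro z
      rw [Finset.mem_filter, List.mem_toFinset]) (by
      refine le_of_eq ?_
      unfold H88C.Dat.nn
      congr 1
      ext z
      rw [Finset.mem_filter, Finset.mem_filter]
      show z ∈ ([c] : List (List V)).flatten.toFinset ∧ _ ↔ _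
      rw [hfl]
      exact Iff.rfl))
    (fun a ha1 ha2 => by
      have h1 := hcount a ha1 ha2
      have h3 : ∀ y ∈ K, hSit.dat.T y =
          ∑ w ∈ c.toFinset, ((I y).filter (fun v => G.Adj w v)).card := by
        intro y _
        show ∑ w ∈ ([c] : List (List V)).flatten.toFinset, _ = _
        rw [hfl]
        rfl
      have h4 : ∑ y ∈ K, (∑ w ∈ c.toFinset, ((I y).filter (fun v => G.Adj w v)).card + a y) =
          ∑ y ∈ K, (hSit.dat.T y + a y) :=
        Finset.sum_congr rfl (fun y hy => by rw [h3 y hy])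
      rw [h4]
      exact h1)
  exact main_fin hK h2 hM hR hP.subW hP.ind hP.clean hP.WS hP.sur hP.p1 hP.p2 hlen hgam hpc hpS
    hpI hP.tot (by rw [hfl] at hsum; exact hsum)

end Pool.Agent.H35P
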